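import Pool.Agent.Q260.KK.Spec

/-!
# Project KK, job HUR: a form of Hurwitz's theorem
-/

set_option autoImplicit false

namespace Pool.Agent.Q224.KK

open MeasureTheory Filter Topology Set Complex Pool.Agent.Q260.KK

theorem t_HUR : S_HUR := by
  intro G hG hlim
  have hs2 : Real.sqrt 2 ^ 2 = 2 := Real.sq_sqrt (by norm_num)
  have hs0 : 0 ≤ Real.sqrt 2 := Real.sqrt_nonneg 2
  have hs_lo : (7 / 5 : ℝ) ≤ Real.sqrt 2 := Real.le_sqrt_of_sq_le (by norm_num)
  have hs_hi : Real.sqrt 2 ≤ 3 / 2 := Real.sqrt_le_iff.2 ⟨by norm_num, by norm_num⟩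
  obtain ⟨c, hc⟩ : ∃ c : ℂ, c = (Real.sqrt 2 : ℂ) * I := ⟨_, rfl⟩
  have hcn : ‖c‖ = Real.sqrt 2 := by
    rw [hc, norm_mul, Complex.norm_I, mul_one, Complex.norm_real, Real.norm_of_nonneg hs0]
  have hc2 : c ^ 2 = -2 := by
    rw [hc, mul_pow, Complex.I_sq, ← Complex.ofReal_pow, hs2]
    push_cast
    ring
  rw [Metric.tendstoUniformlyOn_iff] at hlim
  filter_upwards [hlim (1 / 32) (by norm_num)] with k hk
  rw [← hc]
  by_contra hcon
  push Not at hcon
  have hin : ∀ z : ℂ, ‖z - c‖ ≤ 1 / 4 → z ∈ Metric.closedBall (0 : ℂ) 3 := by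
    intro z hz
    rw [mem_closedBall_zero_iff]
    have h1 : ‖z‖ ≤ ‖z - c‖ + ‖c‖ := by
      have := norm_add_le (z - c) c
      rwa [sub_add_cancel] at this
    linarith
  have hne : ∀ z : ℂ, ‖z - c‖ ≤ 1 / 4 → G k z ≠ 0 := fun z hz => hcon z hz
  have hd : DiffContOnCl ℂ (fun z => (G k z)⁻¹) (Metric.ball c (1 / 4)) := by
    apply DifferentiableOn.diffContOnCl
    intro z hz
    rw [closure_ball c (by norm_num : (1 / 4 : ℝ) ≠ 0), mem_closedBall_iff_norm] at hz
    exact ((hG k z).inv (hne z hz)).differentiableWithinAt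
  have hfr : ∀ z ∈ frontier (Metric.ball c (1 / 4 : ℝ)), ‖(G k z)⁻¹‖ ≤ 32 / 3 := by
    intro z hz
    rw [frontier_ball c (by norm_num : (1 / 4 : ℝ) ≠ 0), mem_sphere_iff_norm] at hz
    have h1 := hk z (hin z hz.le)
    rw [dist_eq_norm] at h1
    have h2 : (1 / 8 : ℝ) ≤ ‖(z ^ 2 + 2) / 4‖ := by
      have e : (z ^ 2 + 2) / 4 = (z - c) * (z + c) / 4 := by
        have : (z - c) * (z + c) = z ^ 2 - c ^ 2 := by ring
        rw [this, hc2]
        ring
      rw [e, norm_div, norm_mul, hz]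
      have h3 : 2 * Real.sqrt 2 - 1 / 4 ≤ ‖z + c‖ := by
        have h4 : ‖(2 : ℂ) * c‖ ≤ ‖z + c‖ + ‖z - c‖ := by
          have := norm_sub_le (z + c) (z - c)
          have e2 : z + c - (z - c) = 2 * c := by ring
          rwa [e2] at this
        rw [norm_mul, hcn, hz] at h4
        have h5 : ‖(2 : ℂ)‖ = 2 := by norm_num
        rw [h5] at h4
        linarith
      have h6 : ‖(4 : ℂ)‖ = 4 := by norm_num
      rw [h6]
      linarith
    have h3 : (3 / 32 : ℝ) ≤ ‖G k z‖ := by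
      have h4 : ‖(z ^ 2 + 2) / 4‖ ≤ ‖(z ^ 2 + 2) / 4 - G k z‖ + ‖G k z‖ := by
        have := norm_add_le ((z ^ 2 + 2) / 4 - G k z) (G k z)
        rwa [sub_add_cancel] at this
      linarith
    rw [norm_inv, inv_le_comm₀ (by linarith) (by norm_num)]
    linarith
  have hcen := Complex.norm_le_of_forall_mem_frontier_norm_le Metric.isBounded_ball hd hfr
    (subset_closure (Metric.mem_ball_self (by norm_num : (0 : ℝ) < 1 / 4)))
  have h1 := hk c (hin c (by simp))
  rw [dist_eq_norm, hc2] at h1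
  have h2 : ‖G k c‖ < 1 / 32 := by
    have e : ((-2 : ℂ) + 2) / 4 - G k c = -(G k c) := by ring
    rwa [e, norm_neg] at h1
  have h3 : 0 < ‖G k c‖ := norm_pos_iff.2 (hne c (by simp))
  rw [norm_inv, inv_le_comm₀ h3 (by norm_num)] at hcen
  norm_num at hcen
  linarith

end Pool.Agent.Q224.KK
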